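import Pool.Agent.Y338.BP.G

set_option autoImplicit false

open MeasureTheory Set
open scoped ENNReal

namespace Pool.Agent.Results.MP_3dd6d4_an.AbelMeans

/-- the `n`-th power of the Beurling transform of a Schwartz function `f`: the Fourier multiplier
with symbol `(conj ξ / ξ) ^ n`, literal form -/
noncomputable def bp (n : ℕ) (f : SchwartzMap ℂ ℂ) (z : ℂ) : ℂ :=
  ∫ ξ : ℂ,
    Complex.exp (2 * (Real.pi : ℂ) * Complex.I * (((z.re * ξ.re + z.im * ξ.im : ℝ)) : ℂ)) *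
      ((starRingEnd ℂ ξ / ξ) ^ n *
        ∫ x : ℂ, Complex.exp (-(2 * (Real.pi : ℂ) * Complex.I *
          (((x.re * ξ.re + x.im * ξ.im : ℝ)) : ℂ))) * f x)

open Pool.Agent.Y338.BP Pool.Agent.TH55.PowA in
/-- **Abel sums of the powers of the Beurling transform.** For `p ≥ 2` and `‖ζ‖ < 1` the series
`S = ∑ ζ ^ n T ^ n f` converges at every point; `(1 - ‖ζ‖ ^ 2) S - f` has `L ^ p` norm at most
`‖ζ‖ (p - 1) ‖f‖`; and the Abel mean `(1 - ‖ζ‖) S` has `L ^ p` norm at most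
`(1 + ‖ζ‖ (p - 1)) / (1 + ‖ζ‖) ‖f‖`, which is at most `p / 2 ‖f‖`. -/
theorem result (p : ℝ) (hp : 2 ≤ p) (ζ : ℂ) (hζ : ‖ζ‖ < 1) (f : SchwartzMap ℂ ℂ) :
    (∀ z : ℂ, Summable fun n : ℕ => ζ ^ n * bp n f z) ∧
    eLpNorm (fun z : ℂ => ((1 - ‖ζ‖ ^ 2 : ℝ) : ℂ) * ∑' n : ℕ, ζ ^ n * bp n f z - f z)
        (ENNReal.ofReal p) volume
      ≤ ENNReal.ofReal (‖ζ‖ * (p - 1)) * eLpNorm f (ENNReal.ofReal p) volume ∧
    eLpNorm (fun z : ℂ => ((1 - ‖ζ‖ : ℝ) : ℂ) * ∑' n : ℕ, ζ ^ n * bp n f z)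
        (ENNReal.ofReal p) volume
      ≤ ENNReal.ofReal ((1 + ‖ζ‖ * (p - 1)) / (1 + ‖ζ‖)) *
        eLpNorm f (ENNReal.ofReal p) volume ∧
    eLpNorm (fun z : ℂ => ((1 - ‖ζ‖ : ℝ) : ℂ) * ∑' n : ℕ, ζ ^ n * bp n f z)
        (ENNReal.ofReal p) volume
      ≤ ENNReal.ofReal (p / 2) * eLpNorm f (ENNReal.ofReal p) volume := by
  have h3 : eLpNorm (fun z : ℂ => ((1 - ‖ζ‖ : ℝ) : ℂ) * ∑' n : ℕ, ζ ^ n * bp n f z)
        (ENNReal.ofReal p) volume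
      ≤ ENNReal.ofReal ((1 + ‖ζ‖ * (p - 1)) / (1 + ‖ζ‖)) *
        eLpNorm f (ENNReal.ofReal p) volume := abel_bound hp ζ hζ f
  refine ⟨fun z => (hasSum_T ζ hζ f z).summable, gen_sharp hp ζ hζ f, h3, h3.trans ?_⟩
  exact mul_le_mul_left (ENNReal.ofReal_le_ofReal (abel_le hp (norm_nonneg ζ) hζ)) _

end Pool.Agent.Results.MP_3dd6d4_an.AbelMeans
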