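import Pool.Agent.Y282.RB.Fin
import Pool.Agent.Y282.RB.K

/-!
# The square of the Beurling transform on one angular class, all `p ≥ 2`

For the Schwartz functions `f` with `f (r e^{iθ}) = e^{4 i θ} φ(r)` the inequality of the question
with `n = 2` holds for all `p ≥ 2`, and for `p > 2` it holds with a strictly smaller constant, whose
least value is determined.
-/

set_option autoImplicit false

open MeasureTheory

namespace Pool.Agent.Results.MP_3dd6d4_an.AngularTwo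

/-- The `n`-th power of the Beurling transform: the Fourier multiplier with symbol
`(conj ξ / ξ) ^ n`, written out with the Fourier kernel `exp(-2 π i x · ξ)`. -/
noncomputable def T (n : ℕ) (f : ℂ → ℂ) (z : ℂ) : ℂ :=
  ∫ ξ : ℂ,
    Complex.exp (2 * (Real.pi : ℂ) * Complex.I * (((z.re * ξ.re + z.im * ξ.im : ℝ)) : ℂ)) *
      ((starRingEnd ℂ ξ / ξ) ^ n *
        ∫ x : ℂ, Complex.exp (-(2 * (Real.pi : ℂ) * Complex.I *
          (((x.re * ξ.re + x.im * ξ.im : ℝ)) : ℂ))) * f x)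

/-- The set of admissible constants for the square of the Beurling transform in `L^p` on the class
of the Schwartz functions with `f (a z) = a ^ 4 f z` for `|a| = 1`. -/
def Admissible (p : ℝ) : Set ℝ :=
  {C | 0 ≤ C ∧ ∀ f : SchwartzMap ℂ ℂ, (∀ a z : ℂ, ‖a‖ = 1 → f (a * z) = a ^ 4 * f z) →
    eLpNorm (T 2 f) (ENNReal.ofReal p) (volume : Measure ℂ)
      ≤ ENNReal.ofReal C * eLpNorm f (ENNReal.ofReal p) (volume : Measure ℂ)}

lemma log_lt {δ t : ℝ} (h0 : 0 < δ) (h1 : δ < 1) (ht0 : 0 < t) (ht1 : t < 1) :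
    Real.log (1 + δ * t) - Real.log (1 - δ * t) < δ * (Real.log (1 + t) - Real.log (1 - t)) := by
  have hδt : δ * t ≤ t := by nlinarith
  have a1 : |δ * t| < 1 := by
    rw [abs_of_nonneg (by positivity)]; linarith
  have a2 : |t| < 1 := by rw [abs_of_nonneg ht0.le]; exact ht1
  have s1 := Real.hasSum_log_sub_log_of_abs_lt_one a1
  have s2 := (Real.hasSum_log_sub_log_of_abs_lt_one a2).mul_left δ
  refine hasSum_lt (i := 1) (fun k => ?_) ?_ s1 s2
  · rw [mul_pow]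
    have h2 : δ ^ (2 * k + 1) ≤ δ := by
      calc δ ^ (2 * k + 1) ≤ δ ^ 1 := pow_le_pow_of_le_one h0.le h1.le (by omega)
        _ = δ := pow_one δ
    have h3 : 0 ≤ 2 * (1 / (2 * (k : ℝ) + 1)) * t ^ (2 * k + 1) := by positivity
    calc 2 * (1 / (2 * (k : ℝ) + 1)) * (δ ^ (2 * k + 1) * t ^ (2 * k + 1))
        = δ ^ (2 * k + 1) * (2 * (1 / (2 * (k : ℝ) + 1)) * t ^ (2 * k + 1)) := by ring
      _ ≤ δ * (2 * (1 / (2 * (k : ℝ) + 1)) * t ^ (2 * k + 1)) := mul_le_mul_of_nonneg_right h2 h3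
  · rw [mul_pow]
    have h2 : δ ^ (2 * 1 + 1) < δ := by
      have : δ ^ (2 * 1 + 1) = δ * (δ * δ) := by ring
      rw [this]
      nlinarith [mul_pos h0 h0, mul_lt_mul_of_pos_left h1 h0]
    have h3 : 0 < 2 * (1 / (2 * ((1 : ℕ) : ℝ) + 1)) * t ^ (2 * 1 + 1) := by positivity
    calc 2 * (1 / (2 * ((1 : ℕ) : ℝ) + 1)) * (δ ^ (2 * 1 + 1) * t ^ (2 * 1 + 1))
        = δ ^ (2 * 1 + 1) * (2 * (1 / (2 * ((1 : ℕ) : ℝ) + 1)) * t ^ (2 * 1 + 1)) := by ring
      _ < δ * (2 * (1 / (2 * ((1 : ℕ) : ℝ) + 1)) * t ^ (2 * 1 + 1)) :=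
        mul_lt_mul_of_pos_right h2 h3

/-- For `p > 2` the constant `(p - 1) (2 p - 1) / (p + 1)` is smaller than `2 ^ (1 - 2/p) (p - 1)`. -/
lemma const_lt {p : ℝ} (hp : 2 < p) :
    (p - 1) * (2 * p - 1) / (p + 1) < (2 : ℝ) ^ (1 - 2 / p) * (p - 1) := by
  have hp0 : 0 < p := by linarith
  set δ : ℝ := 1 - 2 / p with hδ
  have h2p : 2 / p < 1 := by rw [div_lt_one hp0]; exact hp
  have h2p' : 0 < 2 / p := by positivity
  have h0 : 0 < δ := by rw [hδ]; linarith
  have h1 : δ < 1 := by rw [hδ]; linarith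
  have hlog := log_lt h0 h1 (t := 1 / 3) (by norm_num) (by norm_num)
  have p1 : 0 < 1 + δ * (1 / 3) := by positivity
  have p2 : 0 < 1 - δ * (1 / 3) := by linarith
  have e1 : (2 * p - 1) / (p + 1) = (1 + δ * (1 / 3)) / (1 - δ * (1 / 3)) := by
    rw [div_eq_div_iff (by linarith) p2.ne', hδ]
    field_simp
    ring
  have e2 : Real.log (1 + 1 / 3) - Real.log (1 - 1 / 3) = Real.log 2 := by
    rw [← Real.log_div (by norm_num) (by norm_num)]
    norm_num
  have h3 : (2 * p - 1) / (p + 1) < (2 : ℝ) ^ δ := by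
    rw [e1, Real.rpow_def_of_pos (by norm_num : (0 : ℝ) < 2),
      ← Real.log_lt_iff_lt_exp (div_pos p1 p2), Real.log_div p1.ne' p2.ne']
    rw [e2] at hlog
    linarith
  calc (p - 1) * (2 * p - 1) / (p + 1) = (2 * p - 1) / (p + 1) * (p - 1) := by ring
    _ < (2 : ℝ) ^ δ * (p - 1) := mul_lt_mul_of_pos_right h3 (by linarith)

/-- Let `p ≥ 2` and `n = 2`. For every Schwartz function `f` with `f (a z) = a ^ 4 f z` for
`|a| = 1` (that is, `f (r e^{iθ}) = e^{4 i θ} φ(r)`) the inequality of the question holds; the least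
admissible constant for these `f` is `(p - 1) (2 p - 1) / (p + 1)`, and for `p > 2` this number is
strictly smaller than the constant `2 ^ (1 - 2/p) (p - 1)` of the question. -/
theorem result (p : ℝ) (hp : 2 ≤ p) :
    (∀ f : SchwartzMap ℂ ℂ, (∀ a z : ℂ, ‖a‖ = 1 → f (a * z) = a ^ 4 * f z) →
      eLpNorm (T 2 f) (ENNReal.ofReal p) (volume : Measure ℂ)
        ≤ ENNReal.ofReal ((2 : ℝ) ^ (1 - 2 / p) * (p - 1))
          * eLpNorm f (ENNReal.ofReal p) (volume : Measure ℂ)) ∧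
    IsLeast (Admissible p) ((p - 1) * (2 * p - 1) / (p + 1)) ∧
    (2 < p → (p - 1) * (2 * p - 1) / (p + 1) < (2 : ℝ) ^ (1 - 2 / p) * (p - 1)) := by
  have hT : ∀ n f, T n f = Y282.RB.Tn n f := fun n f => rfl
  have hpos : 0 < Y282.RB.Cn p 2 := by
    unfold Y282.RB.Cn
    refine Finset.prod_pos (fun j _ => ?_)
    have h1 : (1 : ℝ) / p < 1 := by
      rw [div_lt_one (by linarith)]; linarith
    have h2 : (0 : ℝ) < 1 / p := by positivity
    have h3 : (0 : ℝ) ≤ (j : ℝ) := Nat.cast_nonneg j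
    apply div_pos <;> linarith
  have hC : Y282.RB.Cn p 2 = (p - 1) * (2 * p - 1) / (p + 1) := by
    have h0 : (p : ℝ) ≠ 0 := by linarith
    have h1 : (1 : ℝ) / p ≠ 0 := by positivity
    have h2 : (1 : ℝ) + 1 / p ≠ 0 := by positivity
    have h3 : p + 1 ≠ 0 := by linarith
    unfold Y282.RB.Cn
    rw [Finset.prod_range_succ, Finset.prod_range_one]
    simp only [Nat.cast_zero, Nat.cast_one, zero_add]
    field_simp
    ring
  have hup : ∀ f : SchwartzMap ℂ ℂ, (∀ a z : ℂ, ‖a‖ = 1 → f (a * z) = a ^ 4 * f z) →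
      eLpNorm (T 2 f) (ENNReal.ofReal p) (volume : Measure ℂ)
        ≤ ENNReal.ofReal ((p - 1) * (2 * p - 1) / (p + 1))
          * eLpNorm f (ENNReal.ofReal p) (volume : Measure ℂ) := by
    intro f hf
    rw [hT, ← hC]
    exact Y282.RB.K.main 2 p (Y282.RB.Cn p 2) (by norm_num) hp hpos.le
      (fun g hg hs => Y282.RB.Fin.plane 2 p (by norm_num) hp (Y282.RB.Fin.star2 p hp) g hg hs) f
      (fun a z ha => by simpa using hf a z ha)
  have hle : (p - 1) * (2 * p - 1) / (p + 1) ≤ (2 : ℝ) ^ (1 - 2 / p) * (p - 1) := by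
    rcases hp.lt_or_eq with h | h
    · exact (const_lt h).le
    · subst h
      norm_num
  refine ⟨fun f hf => (hup f hf).trans ?_, ⟨⟨?_, hup⟩, ?_⟩, const_lt⟩
  · gcongr
  · rw [← hC]; exact hpos.le
  · rintro C ⟨hC0, hCf⟩
    by_contra hlt
    rw [not_le, ← hC] at hlt
    obtain ⟨g, hg, hs, hlt'⟩ := Y282.RB.Fin.sharp 2 p C (by norm_num) (by linarith) hC0 hlt
    obtain ⟨f, hf1, hf2, _⟩ := Y282.RB.K2.main 2 g hg hs
    have h5 := hCf f (fun a z ha => by simpa using hf2 a z ha)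
    rw [hT, hf1] at h5
    exact absurd h5 (not_le.2 hlt')

end Pool.Agent.Results.MP_3dd6d4_an.AngularTwo
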